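import Pool.Agent.U762.DZ.Stm
import Pool.Agent.U97.RP.WC

/-!
# Project DZ, package WCd (helper94): worst case bounds, the law depends on the point
(adapted from `Pool.Agent.U97.RP.WC`)
-/

set_option autoImplicit false

namespace Pool.Agent.U94.DZ

open Finset Pool.Agent.U762.RP Pool.Agent.U762.DZ Pool.Agent.U97.RP

theorem T_two {d : ℕ} {m r : ℤ → ℤ} (h : Rel d m r) {η z₀ hh e : ℝ} (hη : 0 < η) (he0 : 0 < e)
    (he1 : e ≤ 1) (heη : e ≤ η) (hz0 : 0 < z₀) (hz : 4 * (∑ j ∈ range d, |(r (j : ℤ) : ℝ)|) ≤ z₀ * e)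
    (hh4 : 4 * d * hh ≤ e) (x : ℤ) (hx : z₀ ≤ |(x : ℝ)|) (u : ℤ) (hu : |(u : ℝ)| ≤ hh * z₀) :
    |(x : ℝ)| / (2 * d) ≤ |((T d m r x + u : ℤ) : ℝ)| ∧
      |((T d m r x + u : ℤ) : ℝ)| ≤ fac d m η (x % d).toNat * |(x : ℝ)| := by
  have hd0 : (0 : ℤ) < d := by
    have := h.two_le
    exact_mod_cast (by omega : 0 < d)
  have hd : (0 : ℝ) < d := by exact_mod_cast hd0
  have hj0 : 0 ≤ x % d := Int.emod_nonneg _ hd0.ne'
  have hj1 : x % d < d := Int.emod_lt_of_pos _ hd0
  have hjn : (((x % d).toNat : ℕ) : ℤ) = x % d := Int.toNat_of_nonneg hj0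
  have hjr : (x % d).toNat ∈ range d := by
    rw [mem_range]
    have : (((x % d).toNat : ℕ) : ℤ) < d := by rw [hjn]; exact hj1
    exact_mod_cast this
  have hm : 1 ≤ m (x % d) := h.pos _ hj0 hj1
  have hmR : (1 : ℝ) ≤ m (x % d) := by exact_mod_cast hm
  have hTx : ((T d m r x : ℤ) : ℝ) * d = m (x % d) * x - r (x % d) := by
    exact_mod_cast T_mul h x
  have hr : |(r (x % d) : ℝ)| ≤ ∑ j ∈ range d, |(r (j : ℤ) : ℝ)| := by
    have := single_le_sum (f := fun j : ℕ => |(r (j : ℤ) : ℝ)|) (fun i _ => abs_nonneg _) hjr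
    rw [hjn] at this
    exact this
  have e1 : |((T d m r x + u : ℤ) : ℝ)| * d = |(m (x % d) : ℝ) * x - r (x % d) + u * d| := by
    rw [← abs_of_pos hd, ← abs_mul, abs_of_pos hd, ← hTx]
    push_cast
    ring_nf
  have hmx : |(m (x % d) : ℝ) * x| = m (x % d) * |(x : ℝ)| := by
    rw [abs_mul, abs_of_pos (by linarith : (0 : ℝ) < m (x % d))]
  have e2 : |(m (x % d) : ℝ) * x - r (x % d) + u * d| ≤
      (m (x % d) : ℝ) * |(x : ℝ)| + |(r (x % d) : ℝ)| + |(u : ℝ)| * d := by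
    have h1 := abs_add_le ((m (x % d) : ℝ) * x - r (x % d)) (u * d)
    have h2 := abs_sub ((m (x % d) : ℝ) * x) (r (x % d) : ℝ)
    rw [hmx] at h2
    rw [abs_mul (u : ℝ), abs_of_pos hd] at h1
    linarith
  have e2' : (m (x % d) : ℝ) * |(x : ℝ)| - |(r (x % d) : ℝ)| - |(u : ℝ)| * d ≤
      |(m (x % d) : ℝ) * x - r (x % d) + u * d| := by
    have h1 : (m (x % d) : ℝ) * x = ((m (x % d) : ℝ) * x - r (x % d) + u * d) + r (x % d) + (-(u * d)) := by
      ring
    have h2 := abs_add_le ((m (x % d) : ℝ) * x - r (x % d) + u * d + r (x % d)) (-(u * d))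
    have h3 := abs_add_le ((m (x % d) : ℝ) * x - r (x % d) + u * d) (r (x % d) : ℝ)
    rw [← h1, hmx, abs_neg, abs_mul (u : ℝ), abs_of_pos hd] at h2
    linarith
  have h5 : |(u : ℝ)| * d ≤ z₀ * e / 4 := by
    have h6 : |(u : ℝ)| * d ≤ hh * z₀ * d := mul_le_mul_of_nonneg_right hu hd.le
    have h7 : 4 * d * hh * z₀ ≤ e * z₀ := mul_le_mul_of_nonneg_right hh4 hz0.le
    linarith
  have h8 : z₀ * e ≤ |(x : ℝ)| := by
    have : z₀ * e ≤ z₀ * 1 := mul_le_mul_of_nonneg_left he1 hz0.le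
    linarith
  have h9 : z₀ * e ≤ |(x : ℝ)| * η := mul_le_mul hx heη he0.le (abs_nonneg _)
  have hx0 : 0 ≤ |(x : ℝ)| := abs_nonneg _
  have h10 : |(x : ℝ)| ≤ m (x % d) * |(x : ℝ)| := le_mul_of_one_le_left hx0 hmR
  constructor
  · rw [div_le_iff₀ (by positivity)]
    have : |((T d m r x + u : ℤ) : ℝ)| * (2 * d) = 2 * (|((T d m r x + u : ℤ) : ℝ)| * d) := by ring
    rw [this, e1]
    linarith
  · refine le_of_mul_le_mul_right ?_ hd
    have e3 : fac d m η (x % d).toNat * |(x : ℝ)| * d = (m (x % d) : ℝ) * (1 + η) * |(x : ℝ)| := by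
      unfold fac
      rw [hjn]
      field_simp
    rw [e1, e3]
    refine e2.trans ?_
    have h11 : |(x : ℝ)| * η ≤ m (x % d) * (|(x : ℝ)| * η) :=
      le_mul_of_one_le_left (by positivity) hmR
    have h12 : 0 ≤ z₀ * e := by positivity
    linarith

theorem fac_le_bb {d : ℕ} {m r : ℤ → ℤ} (h : Rel d m r) {η : ℝ} (hη : 0 < η) {j : ℕ}
    (hj : j ∈ range d) : fac d m η j ≤ bb d m η := by
  have := single_le_sum (f := fun j : ℕ => fac d m η j) (fun i hi => (fac_pos h hη hi).le) hj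
  unfold bb
  linarith

theorem one_le_bb {d : ℕ} {m r : ℤ → ℤ} (h : Rel d m r) {η : ℝ} (hη : 0 < η) : 1 ≤ bb d m η := by
  have : 0 ≤ ∑ j ∈ range d, fac d m η j := sum_nonneg fun i hi => (fac_pos h hη hi).le
  unfold bb
  linarith

theorem t_WCd : S_AVGd → S_WCd := by
  intro hAVG d m r hrel η hη
  obtain ⟨z1, h1, hz1, hh1, hAv⟩ := hAVG d m r hrel η hη
  have hd : 0 < d := by
    have := hrel.two_le
    omega
  have hdR : (0 : ℝ) < d := by exact_mod_cast hd
  have hd1 : (1 : ℝ) ≤ 2 * d := by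
    have : (1 : ℝ) ≤ d := by exact_mod_cast hd
    linarith
  obtain ⟨e, he⟩ : ∃ e : ℝ, e = min 1 η := ⟨_, rfl⟩
  have he0 : 0 < e := by
    rw [he]
    exact lt_min one_pos hη
  have he1 : e ≤ 1 := by
    rw [he]
    exact min_le_left _ _
  have heη : e ≤ η := by
    rw [he]
    exact min_le_right _ _
  refine ⟨max z1 (4 * (∑ j ∈ range d, |(r (j : ℤ) : ℝ)|) / e), min h1 (e / (4 * d)),
    hz1.trans (le_max_left _ _), lt_min hh1 (by positivity), ?_⟩
  intro w B β z₀ z₁ E hz hβ hL M θ ε R hθ0 hθ1 hε0 hε1 hR k₀ hun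
  have hzz1 : z1 ≤ z₀ := (le_max_left _ _).trans hz
  have hz0 : 0 < z₀ := by linarith
  have hzr : 4 * (∑ j ∈ range d, |(r (j : ℤ) : ℝ)|) ≤ z₀ * e := by
    have := (le_max_right _ _).trans hz
    rwa [div_le_iff₀ he0] at this
  have hh4 : 4 * d * min h1 (e / (4 * d)) ≤ e := by
    have : min h1 (e / (4 * d)) ≤ e / (4 * d) := min_le_right _ _
    rwa [le_div_iff₀ (by positivity), mul_comm] at this
  have hL1 : Loc w B h1 β z₀ z₁ E := by
    refine ⟨hL.nonneg, hL.mass, fun x hx1 hx2 => ?_⟩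
    obtain ⟨B', w', g1, g2, g3, g4⟩ := hL.slow x hx1 hx2
    exact ⟨B', w', g1.trans (mul_le_mul_of_nonneg_right (min_le_left _ _) hz0.le), g2, g3, g4⟩
  obtain ⟨ρ, hρ⟩ : ∃ ρ : ℝ, ρ = (∑ j ∈ range d, fac d m η j ^ θ) / d * (1 + β) := ⟨_, rfl⟩
  have hAv' := hAv w B β z₀ z₁ E hzz1 hβ hL1 M θ hθ0 hθ1
  rw [← hρ] at hAv' ⊢
  have hρ0 : 0 ≤ ρ := by
    rw [hρ]
    exact mul_nonneg (div_nonneg (sum_nonneg fun j hj => Real.rpow_nonneg (fac_pos hrel hη hj).le _)
      hdR.le) (by linarith)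
  have hR0 : 0 ≤ R := (Real.rpow_nonneg (fac_pos hrel hη (mem_range.2 hd)).le _).trans
    (hR 0 (mem_range.2 hd))
  have hε1' : 0 ≤ 1 - ε := by linarith
  have hb1 : 1 ≤ bb d m η := one_le_bb hrel hη
  have hb0 : 0 < bb d m η := by linarith
  intro k
  induction k with
  | zero =>
    intro _ x _ _
    show pw θ x ≤ 1 * |(x : ℝ)| ^ θ
    rw [one_mul]
    exact le_rfl
  | succ k ih =>
    intro hk x hx1 hx2
    have ih' := ih (by omega)
    have hgk := g_nonneg hε0 hε1 hR0 hρ0 k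
    rw [Function.iterate_succ_apply']
    by_cases hx : |(x : ℝ)| < M
    · have : P d m r w B M ((P d m r w B M)^[k] (pw θ)) x = 0 := by
        unfold P
        rw [if_pos hx]
      rw [this]
      exact mul_nonneg (g_nonneg hε0 hε1 hR0 hρ0 _) (Real.rpow_nonneg (abs_nonneg _) _)
    · obtain ⟨F, hF⟩ : ∃ F : ℤ → ℝ, F = (P d m r w B M)^[k] (pw θ) := ⟨_, rfl⟩
      rw [← hF] at ih' ⊢
      have hx0 : 0 ≤ |(x : ℝ)| := abs_nonneg _
      have hxz0 : z₀ ≤ |(x : ℝ)| := (le_mul_of_one_le_left hz0.le (one_le_pow₀ hd1)).trans hx1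
      have hxz1 : |(x : ℝ)| ≤ z₁ := (le_mul_of_one_le_right hx0 (one_le_pow₀ hb1)).trans hx2
      obtain ⟨i, hki, hiE, hiB, hiw⟩ := hun x hxz0 hxz1
      have hdK : (0 : ℝ) < (d : ℝ) ^ i := by positivity
      have hE0 : 0 ≤ E := le_trans (by positivity) hiE
      -- the size of the perturbation
      obtain ⟨B', w', g1, -, -, g4⟩ := hL.slow x hxz0 hxz1
      have hBB : B x ≤ B' := (g4 x (by rw [sub_self, abs_zero]; exact hE0)).1
      have hBh : (B x : ℝ) ≤ min h1 (e / (4 * d)) * z₀ := le_trans (by exact_mod_cast hBB) g1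
      obtain ⟨z, hzdef⟩ : ∃ z : ℝ, z = fac d m η (x % d).toNat * |(x : ℝ)| := ⟨_, rfl⟩
      have hjr : (x % d).toNat ∈ range d := by
        rw [mem_range]
        have h3 : 0 ≤ x % d := Int.emod_nonneg _ (by exact_mod_cast hd.ne')
        have h4 : x % d < d := Int.emod_lt_of_pos _ (by exact_mod_cast hd)
        omega
      have hfp := fac_pos hrel hη hjr
      have hz0' : 0 ≤ z := by
        rw [hzdef]
        positivity
      have hTz : ∀ u : ℤ, |u| ≤ (B x : ℤ) → |(x : ℝ)| / (2 * d) ≤ |((T d m r x + u : ℤ) : ℝ)| ∧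
          |((T d m r x + u : ℤ) : ℝ)| ≤ z := by
        intro u hu
        rw [hzdef]
        refine T_two hrel hη he0 he1 heη hz0 hzr hh4 x hxz0 u (le_trans ?_ hBh)
        exact_mod_cast hu
      have hzR : z ^ θ ≤ R * |(x : ℝ)| ^ θ := by
        rw [hzdef, Real.mul_rpow hfp.le (abs_nonneg _)]
        exact mul_le_mul_of_nonneg_right (hR _ hjr) (Real.rpow_nonneg (abs_nonneg _) _)
      have hzθ : 0 ≤ z ^ θ := Real.rpow_nonneg hz0' _
      have hlow : (2 * d : ℝ) ^ k * z₀ ≤ |(x : ℝ)| / (2 * d) := by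
        rw [le_div_iff₀ (by positivity)]
        refine le_trans (le_of_eq ?_) hx1
        ring
      have hhigh : z * bb d m η ^ k ≤ z₁ := by
        refine le_trans ?_ hx2
        have h3 : z ≤ bb d m η * |(x : ℝ)| := by
          rw [hzdef]
          exact mul_le_mul_of_nonneg_right (fac_le_bb hrel hη hjr) hx0
        calc z * bb d m η ^ k ≤ bb d m η * |(x : ℝ)| * bb d m η ^ k :=
              mul_le_mul_of_nonneg_right h3 (by positivity)
          _ = |(x : ℝ)| * bb d m η ^ (k + 1) := by ring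
      -- the split weights
      have hvw : ∀ u : ℤ, 0 ≤ w x u - vv d i ε u := by
        intro u
        unfold vv
        split_ifs with h
        · linarith [hiw u h.1 h.2]
        · linarith [hL.nonneg x u]
      have hvsum : ∑ u ∈ Icc (-(B x : ℤ)) (B x), (w x u - vv d i ε u) ≤ 1 - ε := by
        rw [sum_sub_distrib]
        have h2 := sum_vv d i (B x) hiB ε (fun _ => 1)
        simp only [mul_one, sum_const, card_range, nsmul_eq_mul, Nat.cast_pow] at h2
        rw [h2, div_mul_cancel₀ _ hdK.ne']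
        linarith [hL.mass x]
      -- the uniform part
      have hA : ∑ u ∈ Icc (-(B x : ℤ)) (B x), vv d i ε u * F (T d m r x + u) ≤ ε * ρ ^ k * z ^ θ := by
        rw [sum_vv d i (B x) hiB ε (fun u => F (T d m r x + u))]
        have h2 := hAv' k i (by omega) 1 (T d m r x) isCoprime_one_left (|(x : ℝ)| / (2 * d)) z hlow hhigh
          (by
            rw [Int.cast_one, abs_one, one_mul]
            refine le_trans (mul_le_mul_of_nonneg_left ?_ hdK.le) hiE
            exact pow_le_pow_right₀ hb1 (by omega)) (by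
          intro u hu
          rw [one_mul]
          apply hTz
          rw [abs_of_nonneg (by positivity)]
          exact_mod_cast (hu.le.trans hiB))
        simp only [one_mul] at h2
        rw [← hF] at h2
        calc ε / (d : ℝ) ^ i * ∑ u ∈ range (d ^ i), F (T d m r x + (u : ℤ))
            ≤ ε / (d : ℝ) ^ i * ((d : ℝ) ^ i * ρ ^ k * z ^ θ) :=
              mul_le_mul_of_nonneg_left h2 (by positivity)
          _ = ε * ρ ^ k * z ^ θ := by
              field_simp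
      -- the rest
      have hB : ∑ u ∈ Icc (-(B x : ℤ)) (B x), (w x u - vv d i ε u) * F (T d m r x + u) ≤
          (1 - ε) * (g ε R ρ k * z ^ θ) := by
        calc ∑ u ∈ Icc (-(B x : ℤ)) (B x), (w x u - vv d i ε u) * F (T d m r x + u)
            ≤ ∑ u ∈ Icc (-(B x : ℤ)) (B x), (w x u - vv d i ε u) * (g ε R ρ k * z ^ θ) := by
              refine sum_le_sum fun u hu => mul_le_mul_of_nonneg_left ?_ (hvw u)
              rw [mem_Icc] at hu
              obtain ⟨t1, t2⟩ := hTz u (abs_le.2 hu)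
              refine (ih' _ (hlow.trans t1)
                ((mul_le_mul_of_nonneg_right t2 (by positivity)).trans hhigh)).trans
                (mul_le_mul_of_nonneg_left ?_ hgk)
              exact Real.rpow_le_rpow (abs_nonneg _) t2 hθ0
          _ = (∑ u ∈ Icc (-(B x : ℤ)) (B x), (w x u - vv d i ε u)) * (g ε R ρ k * z ^ θ) := by
              rw [sum_mul]
          _ ≤ (1 - ε) * (g ε R ρ k * z ^ θ) :=
              mul_le_mul_of_nonneg_right hvsum (mul_nonneg hgk hzθ)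
      have hQ : P d m r w B M F x = ∑ u ∈ Icc (-(B x : ℤ)) (B x), vv d i ε u * F (T d m r x + u) +
          ∑ u ∈ Icc (-(B x : ℤ)) (B x), (w x u - vv d i ε u) * F (T d m r x + u) := by
        unfold P
        rw [if_neg hx, ← sum_add_distrib]
        exact sum_congr rfl fun u _ => by ring
      rw [hQ]
      show _ ≤ R * (ε * ρ ^ k + (1 - ε) * g ε R ρ k) * |(x : ℝ)| ^ θ
      have hc : 0 ≤ ε * ρ ^ k + (1 - ε) * g ε R ρ k := by positivity
      calc _ ≤ ε * ρ ^ k * z ^ θ + (1 - ε) * (g ε R ρ k * z ^ θ) := add_le_add hA hB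
        _ = (ε * ρ ^ k + (1 - ε) * g ε R ρ k) * z ^ θ := by ring
        _ ≤ (ε * ρ ^ k + (1 - ε) * g ε R ρ k) * (R * |(x : ℝ)| ^ θ) :=
            mul_le_mul_of_nonneg_left hzR hc
        _ = _ := by ring

end Pool.Agent.U94.DZ
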